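import Pool.Agent.Y102.V15

set_option autoImplicit false

/-!
# The period conjecture for cycles on all powers of an abelian variety whose Hodge group is of type
# `A_1`: de Rham-Betti classes are Hodge classes

Let `A` be an abelian variety over the field `ℚ̄` of algebraic numbers. As in `MaximalRealMult` and
`KugaSatake` the de Rham-Betti classes on the powers of `A` are considered as multilinear forms `φ` with
rational values in `2m` variables in `H_1(A, ℚ)`, that is as elements of `H^1(A) ^ {⊗ 2m} (m)` (the
space `H^{2m}(A ^ n) (m)` is a direct summand of a sum of copies of it), and nothing is assumed about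
periods: `AbVar` is the description of an abelian variety over `ℚ̄` by theta functions.

Let `𝔤` be the Lie algebra of the endomorphisms of `H_1(A, ℚ)` that annihilate all classes which are at
the same time Hodge classes and de Rham-Betti classes (`InLie`). By the theorem of Deligne all Hodge
classes are de Rham-Betti classes, so that `𝔤` is the Lie algebra of the Hodge group of `A`.

**Theorem.** Let `A` be an abelian variety such that the derived algebra of `𝔤 ⊗ ℂ` is a sum of
Lie algebras `sl(2)` which act by tensor products of standard representations, in separated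
position (`TypeA1`, see below). Then all de Rham-Betti classes in `H^1(A) ^ {⊗ 2m} (m)`, for all `m`,
which are annihilated by the centre of `𝔤` are Hodge classes. If the centre of `𝔤` is rigid
(`RigidCentre`; for example, if it is zero, that is, if `A` has no factors of type IV), then all de
Rham-Betti classes in `H^1(A) ^ {⊗ 2m} (m)`, for all `m`, are Hodge classes.

## The condition

We consider endomorphisms `φ i x` of `H_1(A, ℂ)`, `i = 1, …, n`, where `x` is a matrix of size two: `φ i`
is a homomorphism of algebras (without unit element), `φ i` and `φ k` commute with each other for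
`i ≠ k`, the matrices of trace zero are mapped into `𝔤 ⊗ ℂ`, and every element of `𝔤 ⊗ ℂ` is the sum of
such elements `φ i (x i)` and of an element which commutes with `𝔤 ⊗ ℂ`. So the irreducible constituents
of `H_1(A, ℂ)` are tensor products `V_S ⊗ χ` of the standard representations of the factors `i ∈ S` and of
a character of the centre. *Separated position* means: for `i ≠ k` there is a constituent
on which the factors `i` and `k` both act nontrivially (`φ i 1 * φ k 1 ≠ 0`), or there are constituents
`V ⊗ U` and `V' ⊗ U`, where `V` and `V'` are the standard representations of the factors `i` and `k`, and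
`U` is a representation of the other factors and of the centre (then `N` is a map `V' ⊗ U → V ⊗ U`, zero
on the other constituents). This means that the graph of an isomorphism of the factors `i` and `k` has
a larger commutant; the condition is necessary for the method.

Let `F` be a totally real field and let the factors correspond to the embeddings of `F` (so `𝔤` is
attached to a quaternion algebra over `F`, if the centre is zero). Examples are:

* the abelian varieties for which all factors act on some constituent. For `F` of degree three
  these are the abelian varieties of Mumford, where `𝔤 ⊗ ℂ = sl(2) ^ 3` acts on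
  `H_1(A, ℂ) = ℂ² ⊗ ℂ² ⊗ ℂ²`, the algebra of endomorphisms of `A` is `ℚ`, and there are Hodge classes on
  `A ^ 2` which are not combinations of products of classes of divisors;
* the abelian varieties for which at least two factors act on some constituent, if the Galois group
  of the Galois closure of `F` acts doubly transitively on the embeddings of `F` (for example, if `F` is
  of degree `n` with the group `S_n` or `A_n`, `n ≥ 4`, or `n = 3`). Here the centre of `𝔤` is usually
  different from zero, as there are constituents on which no noncompact factor acts;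
* the simple abelian varieties of the types I and II of Albert such that the commutant of `End(A)` in
  `End(H_1(A, ℚ))` is of dimension four over its centre `F`; here the `S` have one element;
* the Kuga-Satake varieties of Hodge structures of K3 type of rank three and four over the field of
  their endomorphisms, if this field is totally real.

## The centre

The centre of `𝔤` is *rigid* (`RigidCentre`) if for every element `X` of the centre which generates it
relative to the derived algebra (`Generates`), all relations `∑ x i = 0` between eigenvalues of `X`
for eigenvectors `v i` imply the relations `∑ y i = 0` for the eigenvalues of all the other elements `Y`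
of the centre, for the same eigenvectors. If the centre is zero, or if it has dimension one and zero is
not a generating element, then it is rigid.

## Relation to the files of the library

`MaximalRealMult` treats the abelian varieties with maximal real multiplication, where the classes of
degree two generate all Hodge classes; this is the third example. `KugaSatake` treats the Lie
algebras of spin type. It contains the case of centre zero in which all the factors `sl(2)` act
on all the constituents (it can be applied to `A ^ 2`, with the rank `r = 3`), and the last example.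
The second example and all cases with a centre of `𝔤` different from zero are not contained in these
files.

## Proof

By the theorem of Schneider and Lang the Lie algebra `𝔥` of the endomorphisms that annihilate all
de Rham-Betti classes acts semisimply on `H_1(A, ℚ)`, with the same commutant as `𝔤`. By the lemmas of
Goursat, Kolchin and Ribet the derived algebra of `𝔥 ⊗ ℂ` is the sum of the `φ i (sl(2))`: a proper
subalgebra which is mapped onto all the factors is contained in the graph of an isomorphism between
two of them, and such an isomorphism gives an endomorphism of `H_1(A, ℂ)` which commutes with `𝔥` and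
not with `𝔤`, in separated position. So `[𝔤, 𝔤] ⊆ 𝔥`, and `𝔤` is the sum of `𝔥` and of its centre, by
the positivity of the Rosati involution.
-/

open Module Matrix Pool.Agent.Y102 Pool.Agent.W516.DR Pool.Agent.H204R3.GP

noncomputable section

namespace Pool.Agent.Results.MP_bf54cf_ag.HodgeGroupTypeA1

variable {g : ℕ} (A : AbVar g)

/-! ### De Rham-Betti classes and Hodge classes -/

/-- The multilinear forms in `2m` variables in the rational homology. -/
abbrev Form (m : ℕ) : Type := MultilinearMap ℚ (fun _ : Fin m × Fin 2 => A.H1) ℚ

/-- `φ` is a de Rham-Betti class in `H^1(A) ^ {⊗ 2m} (m)`. -/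
def IsDRB {m : ℕ} (φ : Form A m) : Prop :=
  IsDeRhamBettiForm QBar A.dR (2 * Real.pi * Complex.I) m φ

/-- `φ` is a Hodge class in `H^1(A) ^ {⊗ 2m} (m)`. -/
def IsHodge {m : ℕ} (φ : Form A m) : Prop := IsHodgeTensor (A.per : A.H1 →+ (Fin g → ℂ)) φ

/-- The endomorphism `X` annihilates the form `φ` (as a derivation). -/
def Annihilates {m : ℕ} (X : Module.End ℚ A.H1) (φ : Form A m) : Prop :=
  ∀ v, ∑ k, φ (Function.update v k (X (v k))) = 0

/-! ### The Lie algebra of the Hodge group and its centre -/

/-- `X` is in the Lie algebra `𝔤`: it annihilates all classes that are Hodge classes and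
de Rham-Betti classes. -/
def InLie (X : Module.End ℚ A.H1) : Prop :=
  ∀ (m : ℕ) (φ : Form A m), IsHodge A φ → IsDRB A φ → Annihilates A X φ

/-- `X` is an element of the centre of `𝔤`. -/
def InCentre (X : Module.End ℚ A.H1) : Prop := InLie A X ∧ ∀ Y, InLie A Y → Y * X = X * Y

/-- The class `φ` is annihilated by the centre of `𝔤`. -/
def KilledByCentre {m : ℕ} (φ : Form A m) : Prop := ∀ X, InCentre A X → Annihilates A X φ

/-- The algebra of the endomorphisms of `H_1(A, ℂ)`, as matrices for the basis of the lattice. -/
abbrev EndC (_ : AbVar g) : Type := Matrix (Fin (2 * g)) (Fin (2 * g)) ℂ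

/-- The matrix of the extension of an endomorphism of `H_1(A, ℚ)` to `H_1(A, ℂ)`. -/
def toC (X : Module.End ℚ A.H1) : EndC A := Matrix.of fun i j => (X (Pi.single j 1) i : ℂ)

/-- The complex Lie algebra `𝔤 ⊗ ℂ`, acting on `H_1(A, ℂ)`. -/
def lieC : Submodule ℂ (EndC A) := Submodule.span ℂ {Y | ∃ X, InLie A X ∧ Y = toC A X}

/-- The endomorphisms which commute with `X` and with the derived algebra of `𝔤` commute with the
centre of `𝔤`. -/
def Generates (X : Module.End ℚ A.H1) : Prop :=
  ∀ T : Module.End ℚ A.H1,
    (∀ Y, InLie A Y → ∀ Z, InLie A Z → T * (Y * Z - Z * Y) = (Y * Z - Z * Y) * T) →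
    T * X = X * T → ∀ Z, InCentre A Z → T * Z = Z * T

/-- All relations `∑ i, x i = 0` between eigenvalues of `X` imply the relation `∑ i, y i = 0` between
the eigenvalues of `Y` for the same eigenvectors. -/
def RelationsOf (X Y : Module.End ℚ A.H1) : Prop :=
  ∀ (r : ℕ) (v : Fin r → Fin (2 * g) → ℂ) (x y : Fin r → ℂ),
    (∀ i, v i ≠ 0 ∧ toC A X *ᵥ v i = x i • v i ∧ toC A Y *ᵥ v i = y i • v i) →
      ∑ i, x i = 0 → ∑ i, y i = 0

/-- The centre of `𝔤` is rigid: the relations between the eigenvalues of a generating element of the
centre hold for all elements of the centre. -/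
def RigidCentre : Prop :=
  ∀ X, InCentre A X → Generates A X → ∀ Y, InCentre A Y → RelationsOf A X Y

/-- `z` commutes with `𝔤 ⊗ ℂ`. -/
def CommutesWithLie (z : EndC A) : Prop := ∀ Y ∈ lieC A, z * Y = Y * z

/-- The Lie algebra `𝔤 ⊗ ℂ` is the sum of its centre and of `n` Lie algebras `sl(2)`, which act by tensor
products of standard representations, in separated position. -/
def TypeA1 : Prop :=
  ∃ (n : ℕ) (φ : Fin n → Matrix (Fin 2) (Fin 2) ℂ →ₗ[ℂ] EndC A),
    (∀ i a b, φ i (a * b) = φ i a * φ i b) ∧
    (∀ i k, i ≠ k → ∀ a b, φ i a * φ k b = φ k b * φ i a) ∧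
    (∀ i, φ i 1 ≠ 0) ∧
    (∀ i x, x.trace = 0 → φ i x ∈ lieC A) ∧
    (∀ X ∈ lieC A, ∃ x : Fin n → Matrix (Fin 2) (Fin 2) ℂ, (∀ i, (x i).trace = 0) ∧
      CommutesWithLie A (X - ∑ i, φ i (x i))) ∧
    ∀ i k, i ≠ k → φ i 1 * φ k 1 ≠ 0 ∨ ∃ N : EndC A, N ≠ 0 ∧ φ i 1 * N = N ∧ N * φ k 1 = N ∧
      (∀ l, l ≠ i → l ≠ k → ∀ a, N * φ l a = φ l a * N) ∧
      ∀ z ∈ lieC A, CommutesWithLie A z → N * z = z * N

/-! ### The proof -/

variable {A}

theorem mem_NA {X : Module.End ℚ A.H1} : X ∈ A.NA ↔ InLie A X := Iff.rfl

theorem mem_CN {X : Module.End ℚ A.H1} : X ∈ A.CN ↔ InCentre A X := Iff.rfl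

theorem centre_le (h : RigidCentre A) : A.CN ≤ A.LA :=
  A.centre_le fun X hX hg Y hY => by
    refine dom_of_matrix (h X ⟨hX.1, hX.2⟩ (fun T hT hTX Z hZ => ?_) Y ⟨hY.1, hY.2⟩)
    exact hg T hT hTX Z ⟨hZ.1, hZ.2⟩

theorem killed_of_rigid (h : RigidCentre A) {m : ℕ} {φ : Form A m} (hφ : IsDRB A φ) :
    KilledByCentre A φ := fun _ hX => centre_le h (mem_CN.2 hX) m φ hφ

theorem TypeA1.cas (h : TypeA1 A) : IsHodge A A.cas := by
  obtain ⟨n, φ, h1, h2, h3, h4, h5, h6⟩ := h
  exact A.cas_hodge' (φ := φ) ⟨h1, h2, h3, h4, h5, h6⟩

theorem TypeA1.hodge (h : TypeA1 A) {m : ℕ} {φ : Form A m} (hφ : IsDRB A φ)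
    (hk : KilledByCentre A φ) : IsHodge A φ :=
  A.hodge_of_le (A.NA_le_of_cas h.cas) hφ fun _ hX => hk _ (mem_CN.1 hX)

/-- **Abelian varieties whose Hodge group is of type `A_1`.** -/
theorem result (g : ℕ) (A : AbVar g) (h : TypeA1 A) (m : ℕ) (φ : Form A m) (hφ : IsDRB A φ)
    (hc : KilledByCentre A φ ∨ RigidCentre A) : IsHodge A φ :=
  h.hodge hφ (hc.elim id fun h => killed_of_rigid h hφ)

end Pool.Agent.Results.MP_bf54cf_ag.HodgeGroupTypeA1
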